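import Pool.Agent.H81.MonoPath

set_option autoImplicit false

/-!
A checker on lists of integers for the certificates of monotone paths.
-/

namespace Pool.Agent.H81.MPS

open Pool.Agent.H81.MonoPath

/-- scalar product of lists -/
def dot : List ℤ → List ℤ → ℤ
  | a :: as, b :: bs => a * b + dot as bs
  | _, _ => 0

/-- sum of lists -/
def add : List ℤ → List ℤ → List ℤ
  | a :: as, b :: bs => (a + b) :: add as bs
  | [], bs => bs
  | as, [] => as

/-- linear combination of rows -/
def comb : List ℤ → List (List ℤ) → List ℤ
  | c :: cs, r :: rs => add (r.map (c * ·)) (comb cs rs)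
  | _, _ => []

/-- equality up to zeros at the end -/
def eqz : List ℤ → List ℤ → Bool
  | a :: as, b :: bs => (a == b) && eqz as bs
  | [], bs => bs.all (· == 0)
  | as, [] => as.all (· == 0)

lemma getD_add (x y : List ℤ) (q : ℕ) : (add x y).getD q 0 = x.getD q 0 + y.getD q 0 := by
  induction x generalizing y q with
  | nil => cases y <;> simp [add]
  | cons a as ih =>
    cases y with
    | nil => simp [add]
    | cons b bs =>
      cases q with
      | zero => simp [add]
      | succ q => simpa [add] using ih bs q

lemma getD_smul (c : ℤ) (r : List ℤ) (q : ℕ) : (r.map (c * ·)).getD q 0 = c * r.getD q 0 := by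
  induction r generalizing q with
  | nil => simp
  | cons a as ih =>
    cases q with
    | zero => simp
    | succ q => simpa using ih q

lemma getD_comb (d : ℕ) (cs : List ℤ) (rs : List (List ℤ)) (h : cs.length ≤ d) (q : ℕ) :
    (comb cs rs).getD q 0 = ∑ k : Fin d, cs.getD k 0 * (rs.getD k []).getD q 0 := by
  induction d generalizing cs rs with
  | zero =>
    have : cs = [] := List.length_eq_zero_iff.1 (by omega)
    subst this
    simp [comb]
  | succ d ih =>
    rw [Fin.sum_univ_succ]
    cases cs with
    | nil => simp [comb]
    | cons c cs =>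
      cases rs with
      | nil => simp [comb]
      | cons r rs =>
        have h1 : cs.length ≤ d := by simpa using h
        have := ih cs rs h1
        simp only [comb, getD_add, getD_smul, this]
        simp

lemma dot_eq (d : ℕ) (x y : List ℤ) (h : x.length ≤ d) :
    dot x y = ∑ k : Fin d, x.getD k 0 * y.getD k 0 := by
  induction d generalizing x y with
  | zero =>
    have : x = [] := List.length_eq_zero_iff.1 (by omega)
    subst this
    simp [dot]
  | succ d ih =>
    rw [Fin.sum_univ_succ]
    cases x with
    | nil => simp [dot]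
    | cons c cs =>
      cases y with
      | nil => simp [dot]
      | cons r rs =>
        have h1 : cs.length ≤ d := by simpa using h
        have := ih cs rs h1
        simp only [dot, this]
        simp

lemma all_zero (y : List ℤ) (h : y.all (· == 0) = true) (q : ℕ) : y.getD q 0 = 0 := by
  induction y generalizing q with
  | nil => simp
  | cons a as ih =>
    simp only [List.all_cons, Bool.and_eq_true, beq_iff_eq] at h
    cases q with
    | zero => simpa using h.1
    | succ q => simpa using ih h.2 q

lemma eqz_getD (x y : List ℤ) (h : eqz x y = true) (q : ℕ) : x.getD q 0 = y.getD q 0 := by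
  induction x generalizing y q with
  | nil =>
    have h1 : y.all (· == 0) = true := by cases y <;> simpa [eqz] using h
    rw [all_zero y h1]; simp
  | cons a as ih =>
    cases y with
    | nil =>
      have h1 : (a :: as).all (· == 0) = true := by simpa [eqz] using h
      rw [all_zero _ h1]; simp
    | cons b bs =>
      simp only [eqz, Bool.and_eq_true, beq_iff_eq] at h
      cases q with
      | zero => simpa using h.1
      | succ q => simpa using ih bs h.2 q

lemma getD_map {α β : Type*} (f : α → β) (t : List α) (k : ℕ) (x : α) (y : β)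
    (h : k < t.length) : (t.map f).getD k y = f (t.getD k x) := by
  rw [List.getD_eq_getElem (t.map f) y (by simpa using h), List.getElem_map,
    List.getD_eq_getElem t x h]

/-- unit vectors -/
lemma getD_unit (p q : ℕ) (D : ℤ) :
    (List.replicate p 0 ++ [D]).getD q 0 = if p = q then D else 0 := by
  induction p generalizing q with
  | zero =>
    cases q with
    | zero => simp
    | succ q => simp
  | succ p ih =>
    cases q with
    | zero => simp [List.replicate_succ]
    | succ q => simpa [List.replicate_succ] using ih q

/-- a vertex: tight inequalities, adjugate, determinant -/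
structure Cert where
  t : List ℕ
  N : List (List ℤ)
  D : ℤ

/-- the coordinates of the vertex, times `D` -/
def Cert.x (v : Cert) (bT : List ℤ) : List ℤ := v.N.map fun r => dot r bT

/-- check of the strict inequalities -/
def strictChk (t : List ℕ) (x : List ℤ) (D : ℤ) : ℕ → List (List ℤ) → List ℤ → Bool
  | j, r :: rs, b :: bs => (t.contains j || decide (dot r x < b * D)) && strictChk t x D (j + 1) rs bs
  | _, _, _ => true

/-- check of the inverse matrix -/
def invChk (AT : List (List ℤ)) (D : ℤ) : ℕ → List (List ℤ) → Bool
  | p, r :: rs => decide (r.length = AT.length) && eqz (comb r AT) (List.replicate p 0 ++ [D]) &&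
      invChk AT D (p + 1) rs
  | _, [] => true

/-- check that a list has no repetitions -/
def nd : List ℕ → Bool
  | a :: as => !as.contains a && nd as
  | [] => true

lemma nd_iff (t : List ℕ) (h : nd t = true) : t.Nodup := by
  induction t with
  | nil => simp
  | cons a as ih =>
    simp only [nd, Bool.and_eq_true, Bool.not_eq_true', List.contains_eq_mem,
      decide_eq_false_iff_not] at h
    exact List.nodup_cons.2 ⟨h.1, ih h.2⟩

/-- check of a vertex -/
def Cert.chk (A : List (List ℤ)) (b : List ℤ) (d : ℕ) (v : Cert) : Bool :=
  decide (0 < v.D) && decide (v.t.length = d) && decide (v.N.length = d) && nd v.t &&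
    v.t.all (fun j => decide (j < A.length)) &&
    invChk (v.t.map fun j => A.getD j []) v.D 0 v.N &&
    strictChk v.t (v.x (v.t.map fun j => b.getD j 0)) v.D 0 A b

/-- check of an edge -/
def edgeChk (t t' : List ℕ) : Bool :=
  (t.filter (fun j => !t'.contains j)).length == 1 && t'.any (fun j => !t.contains j)

/-- check of an edge and of its direction -/
def Cert.step (b c : List ℤ) (v w : Cert) : Bool :=
  edgeChk v.t w.t &&
    decide (dot c (v.x (v.t.map fun j => b.getD j 0)) * w.D <
      dot c (w.x (w.t.map fun j => b.getD j 0)) * v.D)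

/-- check of a path -/
def stepsChk (b c : List ℤ) : List Cert → Bool
  | v :: w :: rest => v.step b c w && stepsChk b c (w :: rest)
  | _ => true

lemma stepsChk_get (b c : List ℤ) (L : List Cert) (h : stepsChk b c L = true) (i : ℕ)
    (hi : i + 1 < L.length) : (L[i]).step b c (L[i + 1]) = true := by
  induction L generalizing i with
  | nil => simp at hi
  | cons v L ih =>
    cases L with
    | nil => simp at hi
    | cons w rest =>
      simp only [stepsChk, Bool.and_eq_true] at h
      cases i with
      | zero => simpa using h.1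
      | succ i =>
        have := ih h.2 i (by simpa using hi)
        simpa using this

lemma strictChk_get (t : List ℕ) (x : List ℤ) (D : ℤ) (A : List (List ℤ)) (b : List ℤ) (s j : ℕ)
    (h : strictChk t x D s A b = true) (hj : j < A.length) (hAb : A.length = b.length) :
    (s + j) ∈ t ∨ dot (A.getD j []) x < b.getD j 0 * D := by
  induction A generalizing b s j with
  | nil => simp at hj
  | cons r rs ih =>
    cases b with
    | nil => simp at hAb
    | cons b0 bs =>
      simp only [strictChk, Bool.and_eq_true, Bool.or_eq_true, decide_eq_true_eq,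
        List.contains_iff_mem] at h
      cases j with
      | zero => simpa using h.1
      | succ j =>
        have := ih bs (s + 1) j h.2 (by simpa using hj) (by simpa using hAb)
        rw [show s + 1 + j = s + (j + 1) by ring] at this
        simpa using this

lemma invChk_get (AT : List (List ℤ)) (D : ℤ) (N : List (List ℤ)) (s p : ℕ)
    (h : invChk AT D s N = true) (hp : p < N.length) :
    (N.getD p []).length = AT.length ∧
      eqz (comb (N.getD p []) AT) (List.replicate (s + p) 0 ++ [D]) = true := by
  induction N generalizing s p with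
  | nil => simp at hp
  | cons r rs ih =>
    simp only [invChk, Bool.and_eq_true, decide_eq_true_eq] at h
    cases p with
    | zero => simpa using h.1
    | succ p =>
      have := ih (s + 1) p h.2 (by simpa using hp)
      rw [show s + 1 + p = s + (p + 1) by ring] at this
      simpa using this

lemma edgeChk_get (t t' : List ℕ) (hnd : t.Nodup) (h : edgeChk t t' = true) :
    ∃ k k', k < t.length ∧ k' < t'.length ∧ t.getD k 0 ∉ t' ∧ t'.getD k' 0 ∉ t ∧
      ∀ l, l < t.length → l ≠ k → t.getD l 0 ∈ t' := by
  simp only [edgeChk, Bool.and_eq_true, beq_iff_eq, List.any_eq_true] at h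
  obtain ⟨h1, y, hy, hy'⟩ := h
  obtain ⟨a, ha⟩ := List.length_eq_one_iff.1 h1
  have ha1 : a ∈ t.filter (fun j => !t'.contains j) := by rw [ha]; simp
  simp only [List.mem_filter, Bool.not_eq_true', List.contains_eq_mem,
    decide_eq_false_iff_not] at ha1
  obtain ⟨k, hk, hka⟩ := List.mem_iff_getElem.1 ha1.1
  obtain ⟨k', hk', hky⟩ := List.mem_iff_getElem.1 hy
  refine ⟨k, k', hk, hk', ?_, ?_, ?_⟩
  · rw [List.getD_eq_getElem _ _ hk, hka]; exact ha1.2
  · rw [List.getD_eq_getElem _ _ hk', hky]
    simpa using hy'
  · intro l hl hlk
    rw [List.getD_eq_getElem _ _ hl]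
    by_contra hn
    have h2 : t[l] ∈ t.filter (fun j => !t'.contains j) := by
      simp only [List.mem_filter, Bool.not_eq_true', List.contains_eq_mem,
        decide_eq_false_iff_not]
      exact ⟨List.getElem_mem hl, hn⟩
    rw [ha, List.mem_singleton, ← hka] at h2
    exact hlk ((List.Nodup.getElem_inj_iff hnd).1 h2)

/-- Certificate theorem with lists of integers. -/
theorem hasMonotonePath_of_list (d n m : ℕ) (A : List (List ℤ)) (b c : List ℤ) (L : List Cert)
    (hn : 0 < n) (hA : A.length = n) (hb : b.length = n) (hc : c.length ≤ d)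
    (hAr : A.all (fun r => decide (r.length ≤ d)) = true)
    (hL : L.all (fun v => v.chk A b d) = true) (hs : stepsChk b c L = true)
    (hcov : (List.range n).all (fun j => L.any fun v => v.t.contains j) = true)
    (hm : L.length = m) : HasMonotonePath d n m := by
  subst hm
  have hchk : ∀ i : Fin L.length, (L[i]).chk A b d = true := fun i =>
    List.all_eq_true.1 hL _ (List.getElem_mem i.2)
  have hD : ∀ i : Fin L.length, 0 < (L[i]).D := fun i => by
    have := hchk i
    simp only [Cert.chk, Bool.and_eq_true, decide_eq_true_eq] at this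
    exact this.1.1.1.1.1.1
  have htl : ∀ i : Fin L.length, (L[i]).t.length = d := fun i => by
    have := hchk i
    simp only [Cert.chk, Bool.and_eq_true, decide_eq_true_eq] at this
    exact this.1.1.1.1.1.2
  have hNl : ∀ i : Fin L.length, (L[i]).N.length = d := fun i => by
    have := hchk i
    simp only [Cert.chk, Bool.and_eq_true, decide_eq_true_eq] at this
    exact this.1.1.1.1.2
  have hnd : ∀ i : Fin L.length, (L[i]).t.Nodup := fun i => by
    have := hchk i
    simp only [Cert.chk, Bool.and_eq_true, decide_eq_true_eq] at this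
    exact nd_iff _ this.1.1.1.2
  have hall : ∀ i : Fin L.length, ∀ j ∈ (L[i]).t, j < n := fun i j hj => by
    have := hchk i
    simp only [Cert.chk, Bool.and_eq_true, decide_eq_true_eq] at this
    have h2 := List.all_eq_true.1 this.1.1.2 j hj
    simpa [hA] using h2
  have hinv : ∀ i : Fin L.length,
      invChk ((L[i]).t.map fun j => A.getD j []) (L[i]).D 0 (L[i]).N = true := fun i => by
    have := hchk i
    simp only [Cert.chk, Bool.and_eq_true, decide_eq_true_eq] at this
    exact this.1.2
  have hstr : ∀ i : Fin L.length,
      strictChk (L[i]).t ((L[i]).x ((L[i]).t.map fun j => b.getD j 0)) (L[i]).D 0 A b = true :=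
    fun i => by
    have := hchk i
    simp only [Cert.chk, Bool.and_eq_true, decide_eq_true_eq] at this
    exact this.2
  have hkt : ∀ (i : Fin L.length) (k : Fin d), (k : ℕ) < (L[i]).t.length := fun i k => by
    rw [htl]; exact k.2
  have hT : ∀ (i : Fin L.length) (k : Fin d), (L[i]).t.getD k 0 < n := by
    intro i k
    rw [List.getD_eq_getElem _ _ (hkt i k)]
    exact hall i _ (List.getElem_mem _)
  have hNrow : ∀ (i : Fin L.length) (p : Fin d), ((L[i]).N.getD p []).length = d := by
    intro i p
    have := (invChk_get _ _ _ 0 p (hinv i) (by rw [hNl]; exact p.2)).1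
    rw [this, List.length_map, htl]
  have hx : ∀ (i : Fin L.length) (q : Fin d),
      ((L[i]).x ((L[i]).t.map fun j => b.getD j 0)).getD q 0 =
        ∑ k : Fin d, ((L[i]).N.getD q []).getD k 0 * b.getD ((L[i]).t.getD k 0) 0 := by
    intro i q
    have hq : (q : ℕ) < (L[i]).N.length := by rw [hNl]; exact q.2
    have e1 : ((L[i]).x ((L[i]).t.map fun j => b.getD j 0)).getD q 0 =
        dot ((L[i]).N.getD q []) ((L[i]).t.map fun j => b.getD j 0) := by
      rw [List.getD_eq_getElem _ _ (by rw [Cert.x, List.length_map]; exact hq)]
      simp only [Cert.x, List.getElem_map]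
      rw [List.getD_eq_getElem _ _ hq]
    rw [e1, dot_eq d _ _ (hNrow i q).le]
    apply Finset.sum_congr rfl
    intro k _
    congr 1
    rw [List.getD_eq_getElem _ _ (by rw [List.length_map]; exact hkt i k), List.getElem_map,
      List.getD_eq_getElem _ _ (hkt i k)]
  have hxl : ∀ i : Fin L.length, ((L[i]).x ((L[i]).t.map fun j => b.getD j 0)).length ≤ d := by
    intro i
    rw [Cert.x, List.length_map, hNl]
  have hdotx : ∀ (i : Fin L.length) (y : List ℤ), y.length ≤ d →
      dot y ((L[i]).x ((L[i]).t.map fun j => b.getD j 0)) =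
        ∑ q : Fin d, y.getD q 0 *
          ∑ k : Fin d, ((L[i]).N.getD q []).getD k 0 * b.getD ((L[i]).t.getD k 0) 0 := by
    intro i y hy
    rw [dot_eq d _ _ hy]
    apply Finset.sum_congr rfl
    intro q _
    rw [hx]
  refine hasMonotonePath_of_int (d := d) (n := n) (m := L.length)
    (fun j q => (A.getD j []).getD q 0) (fun j => b.getD j 0) (fun q => c.getD q 0)
    (fun i k => ⟨(L[i]).t.getD k 0, hT i k⟩) (fun i p k => ((L[i]).N.getD p []).getD k 0)
    (fun i => (L[i]).D) hD ?_ ?_ ?_ hn ?_ ?_
  · intro i p q
    have h1 := (invChk_get _ _ _ 0 p (hinv i) (by rw [hNl]; exact p.2)).2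
    have h2 := eqz_getD _ _ h1 q
    rw [getD_unit, getD_comb d _ _ (hNrow i p).le] at h2
    have h3 : (if p = q then (L[i]).D else 0) = if 0 + (p : ℕ) = q then (L[i]).D else 0 := by
      congr 1
      rw [zero_add]
      exact propext Fin.ext_iff
    rw [h3, ← h2]
    apply Finset.sum_congr rfl
    intro k _
    rw [getD_map (fun j => A.getD j []) (L[i]).t k 0 [] (hkt i k)]
  · intro i j
    rcases strictChk_get _ _ _ _ _ 0 j (hstr i) (by rw [hA]; exact j.2) (by rw [hA, hb]) with h | h
    · left
      rw [zero_add] at h
      obtain ⟨k, hk, hkj⟩ := List.mem_iff_getElem.1 h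
      refine ⟨⟨k, by rw [← htl i]; exact hk⟩, ?_⟩
      apply Fin.ext
      simp only
      rw [List.getD_eq_getElem _ _ hk, hkj]
    · right
      have hlen : (A.getD j []).length ≤ d := by
        rw [List.getD_eq_getElem _ _ (by rw [hA]; exact j.2)]
        have := List.all_eq_true.1 hAr _ (List.getElem_mem (by rw [hA]; exact j.2))
        simpa using this
      rw [hdotx i _ hlen] at h
      exact h
  · intro j
    have h1 := List.all_eq_true.1 hcov j (List.mem_range.2 j.2)
    rw [List.any_eq_true] at h1
    obtain ⟨v, hv, hvj⟩ := h1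
    obtain ⟨i, hi, rfl⟩ := List.mem_iff_getElem.1 hv
    have h2 : (j : ℕ) ∈ (L[i]).t := by simpa using hvj
    obtain ⟨k, hk, hkj⟩ := List.mem_iff_getElem.1 h2
    refine ⟨⟨i, hi⟩, ⟨k, by rw [← htl ⟨i, hi⟩]; exact hk⟩, ?_⟩
    apply Fin.ext
    simp only
    have hk' : k < (L[(⟨i, hi⟩ : Fin L.length)]).t.length := hk
    rw [List.getD_eq_getElem _ _ hk']
    exact hkj
  · intro i j hij
    have hi1 : (i : ℕ) + 1 < L.length := by rw [← hij]; exact j.2
    have h1 := stepsChk_get b c L hs i hi1
    simp only [Cert.step, Bool.and_eq_true, decide_eq_true_eq] at h1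
    have hj : j = ⟨i + 1, hi1⟩ := Fin.ext hij
    subst hj
    obtain ⟨k, k', hk, hk', e1, e2, e3⟩ := edgeChk_get _ _ (hnd i) h1.1
    have hlj := htl ⟨i + 1, hi1⟩
    have hli := htl i
    refine ⟨⟨k, by rw [← hli]; exact hk⟩, ⟨k', by rw [← hlj]; exact hk'⟩, ?_, ?_, ?_⟩
    · intro l hl
      apply e1
      have h2 := congrArg Fin.val hl
      simp only at h2
      change L[(i : ℕ)].t.getD k 0 ∈ _
      change _ = L[(i : ℕ)].t.getD k 0 at h2
      rw [← h2, List.getD_eq_getElem _ _ (hkt ⟨i + 1, hi1⟩ l)]
      exact List.getElem_mem _
    · intro l hl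
      apply e2
      have h2 := congrArg Fin.val hl
      simp only at h2
      change (L[(i : ℕ) + 1]).t.getD k' 0 ∈ _
      change _ = (L[(i : ℕ) + 1]).t.getD k' 0 at h2
      rw [← h2, List.getD_eq_getElem _ _ (hkt i l)]
      exact List.getElem_mem _
    · intro l hl
      have h2 := e3 l (by rw [hli]; exact l.2)
        (fun h => hl (Fin.ext h))
      obtain ⟨l', hl', hll⟩ := List.mem_iff_getElem.1 h2
      refine ⟨⟨l', by rw [← hlj]; exact hl'⟩, ?_⟩
      apply Fin.ext
      simp only
      have hl2 : l' < (L[(⟨(i : ℕ) + 1, hi1⟩ : Fin L.length)]).t.length := hl'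
      rw [List.getD_eq_getElem _ _ hl2]
      exact hll
  · intro i j hij
    have hi1 : (i : ℕ) + 1 < L.length := by rw [← hij]; exact j.2
    have h1 := stepsChk_get b c L hs i hi1
    simp only [Cert.step, Bool.and_eq_true, decide_eq_true_eq] at h1
    have hj : j = ⟨i + 1, hi1⟩ := Fin.ext hij
    subst hj
    have h2 := h1.2
    have e1 := hdotx i c hc
    have e2 := hdotx ⟨i + 1, hi1⟩ c hc
    rw [← e1, ← e2]
    exact h2

end Pool.Agent.H81.MPS
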