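import Pool.Agent.H81.MPS.Check

set_option autoImplicit false

/-!
`M(6, 9) ≥ 29`: an explicit `6`-dimensional polytope with exactly `9` facets, given by integer
inequalities, with a monotone path through `29` vertices. The certificate lists, for each vertex of
the path, the 6 tight inequalities, a multiple of the inverse of their matrix and the factor.
-/

namespace Pool.Agent.H81.MPS.SixNine

open Pool.Agent.H81.MonoPath

/-- left-hand sides of the inequalities -/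
def A : List (List ℤ) := [[-1, 0, 0, 0, 0, 0], [0, -1, 0, 0, 0, 0], [-209, 511, 1249, -521, 101, -107], [151, -425, -1091, 487, -70, 145], [0, 0, -1, 0, 0, 0], [0, 0, 0, -1, 0, 0], [0, 0, 0, 0, -1, 0], [0, 0, 0, 0, 0, -1], [19, -29, -83, 55, -7, 37]]

/-- right-hand sides of the inequalities -/
def b : List ℤ := [0, 0, 1, 1, 0, 0, 0, 0, 1]

/-- the objective function -/
def c : List ℤ := [221, -295, -889, 53, -83, 215]

/-- vertices 0 to 7 of the path -/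
def L0 : List Cert := [
  ⟨[0, 1, 2, 3, 7, 8], [[-52812, 0, 0, 0, 0, 0], [0, -52812, 0, 0, 0, 0], [5076, 24084, -49, -212, 26784, 1413], [11664, 13392, 203, 40, 77652, 2529], [-111888, 38448, 2176, 2828, 13392, -4428], [0, 0, 0, 0, -52812, 0]], 52812⟩,
  ⟨[0, 1, 2, 6, 7, 8], [[-25452, 0, 0, 0, 0, 0], [0, -25452, 0, 0, 0, 0], [-1596, 12996, 55, 1908, 13392, 521], [6384, 6192, 83, -360, 37332, 1249], [0, 0, 0, -25452, 0, 0], [0, 0, 0, 0, -25452, 0]], 25452⟩,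
  ⟨[0, 1, 3, 6, 7, 8], [[-19584, 0, 0, 0, 0, 0], [0, -19584, 0, 0, 0, 0], [948, 9252, -55, 441, 10044, 487], [8196, 3636, -83, -1827, 28332, 1091], [0, 0, 0, -19584, 0, 0], [0, 0, 0, 0, -19584, 0]], 19584⟩,
  ⟨[0, 2, 3, 6, 7, 8], [[-9612, 0, 0, 0, 0, 0], [-27972, 544, 707, 13203, 3348, -1107], [13680, -257, -361, -6021, 3348, 762], [9216, -101, -172, -3348, 13284, 741], [0, 0, 0, -9612, 0, 0], [0, 0, 0, 0, -9612, 0]], 9612⟩,
  ⟨[2, 3, 4, 6, 7, 8], [[-771, -1083, 28836, -18063, 10044, 2286], [79, -133, 83916, 3807, 43524, 1926], [0, 0, -41040, 0, 0, 0], [308, 304, -27648, 3024, 47088, 972], [0, 0, 0, -41040, 0, 0], [0, 0, 0, 0, -41040, 0]], 41040⟩,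
  ⟨[0, 2, 3, 4, 6, 7], [[-27432, 0, 0, 0, 0, 0], [-23112, 487, 521, 39852, 12717, 23436], [0, 0, 0, -27432, 0, 0], [-11664, 425, 511, -26676, 7155, 28620], [0, 0, 0, 0, -27432, 0], [0, 0, 0, 0, 0, -27432]], 27432⟩,
  ⟨[0, 1, 2, 3, 4, 7], [[-12717, 0, 0, 0, 0, 0], [0, -12717, 0, 0, 0, 0], [0, 0, 0, 0, -12717, 0], [621, -7155, 70, 101, -22761, 7155], [-23112, 27432, 487, 521, 39852, 23436], [0, 0, 0, 0, 0, -12717]], 12717⟩,
  ⟨[0, 1, 2, 4, 5, 7], [[-101, 0, 0, 0, 0, 0], [0, -101, 0, 0, 0, 0], [0, 0, 0, -101, 0, 0], [0, 0, 0, 0, -101, 0], [-209, 511, 1, 1249, -521, -107], [0, 0, 0, 0, 0, -101]], 101⟩]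

theorem h0 : (L0.all fun v => v.chk A b 6) = true := by decide +kernel

/-- vertices 8 to 15 of the path -/
def L1 : List Cert := [
  ⟨[0, 1, 2, 5, 6, 7], [[-1249, 0, 0, 0, 0, 0], [0, -1249, 0, 0, 0, 0], [-209, 511, 1, -521, 101, -107], [0, 0, 0, -1249, 0, 0], [0, 0, 0, 0, -1249, 0], [0, 0, 0, 0, 0, -1249]], 1249⟩,
  ⟨[0, 2, 4, 5, 6, 7], [[-511, 0, 0, 0, 0, 0], [-209, 1, 1249, -521, 101, -107], [0, 0, -511, 0, 0, 0], [0, 0, 0, -511, 0, 0], [0, 0, 0, 0, -511, 0], [0, 0, 0, 0, 0, -511]], 511⟩,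
  ⟨[0, 1, 4, 5, 6, 7], [[-1, 0, 0, 0, 0, 0], [0, -1, 0, 0, 0, 0], [0, 0, -1, 0, 0, 0], [0, 0, 0, -1, 0, 0], [0, 0, 0, 0, -1, 0], [0, 0, 0, 0, 0, -1]], 1⟩,
  ⟨[0, 1, 3, 4, 6, 7], [[-487, 0, 0, 0, 0, 0], [0, -487, 0, 0, 0, 0], [0, 0, 0, -487, 0, 0], [151, -425, 1, -1091, -70, 145], [0, 0, 0, 0, -487, 0], [0, 0, 0, 0, 0, -487]], 487⟩,
  ⟨[1, 3, 4, 5, 6, 7], [[-425, 1, -1091, 487, -70, 145], [-151, 0, 0, 0, 0, 0], [0, 0, -151, 0, 0, 0], [0, 0, 0, -151, 0, 0], [0, 0, 0, 0, -151, 0], [0, 0, 0, 0, 0, -151]], 151⟩,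
  ⟨[0, 1, 3, 4, 5, 6], [[-145, 0, 0, 0, 0, 0], [0, -145, 0, 0, 0, 0], [0, 0, 0, -145, 0, 0], [0, 0, 0, 0, -145, 0], [0, 0, 0, 0, 0, -145], [151, -425, 1, -1091, 487, -70]], 145⟩,
  ⟨[0, 1, 2, 3, 4, 5], [[-7155, 0, 0, 0, 0, 0], [0, -7155, 0, 0, 0, 0], [0, 0, 0, 0, -7155, 0], [0, 0, 0, 0, 0, -7155], [-14148, 28620, 145, 107, 64368, -23436], [621, -7155, 70, 101, -22761, 12717]], 7155⟩,
  ⟨[0, 1, 2, 3, 5, 8], [[-77652, 0, 0, 0, 0, 0], [0, -77652, 0, 0, 0, 0], [1548, 28620, -175, -332, -26784, 795], [0, 0, 0, 0, -77652, 0], [-167472, 53136, 3148, 4148, -13392, -7152], [11664, 13392, 203, 40, 52812, 2529]], 77652⟩]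

theorem h1 : (L1.all fun v => v.chk A b 6) = true := by decide +kernel

/-- vertices 16 to 23 of the path -/
def L2 : List Cert := [
  ⟨[0, 1, 2, 5, 6, 8], [[-37332, 0, 0, 0, 0, 0], [0, -37332, 0, 0, 0, 0], [-5700, 15804, 37, -13392, 2988, 107], [0, 0, 0, -37332, 0, 0], [0, 0, 0, 0, -37332, 0], [6384, 6192, 83, 25452, -360, 1249]], 37332⟩,
  ⟨[0, 1, 3, 5, 6, 8], [[-28332, 0, 0, 0, 0, 0], [0, -28332, 0, 0, 0, 0], [-2832, 11520, -37, -10044, 1575, 145], [0, 0, 0, -28332, 0, 0], [0, 0, 0, 0, -28332, 0], [8196, 3636, -83, 19584, -1827, 1091]], 28332⟩,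
  ⟨[0, 2, 3, 5, 6, 8], [[-13284, 0, 0, 0, 0, 0], [-41868, 787, 1037, -3348, 19413, -1788], [15696, -320, -439, -3348, -7155, 795], [0, 0, 0, -13284, 0, 0], [0, 0, 0, 0, -13284, 0], [9216, -101, -172, 9612, -3348, 741]], 13284⟩,
  ⟨[0, 2, 3, 4, 5, 6], [[-28620, 0, 0, 0, 0, 0], [-14148, 145, 107, 64368, -23436, 7155], [0, 0, 0, -28620, 0, 0], [0, 0, 0, 0, -28620, 0], [0, 0, 0, 0, 0, -28620], [-11664, 425, 511, -26676, 27432, 7155]], 28620⟩,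
  ⟨[2, 3, 4, 5, 6, 8], [[-960, -1317, 39852, -10044, -21465, 2385], [-236, -475, 125604, -43524, 1161, 1179], [0, 0, -47088, 0, 0, 0], [0, 0, 0, -47088, 0, 0], [0, 0, 0, 0, -47088, 0], [308, 304, -27648, 41040, 3024, 972]], 47088⟩,
  ⟨[1, 2, 3, 4, 5, 8], [[85860, -525, -996, 232956, -80352, 2385], [-4644, 0, 0, 0, 0, 0], [0, 0, 0, -4644, 0, 0], [0, 0, 0, 0, -4644, 0], [188352, -944, -1900, 502416, -174096, 4716], [-12096, 91, 152, -34992, 15228, -207]], 4644⟩,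
  ⟨[1, 2, 3, 4, 7, 8], [[72252, -147, -636, 158436, 80352, 4239], [-15228, 0, 0, 0, 0, 0], [0, 0, 0, -15228, 0, 0], [-12096, 91, 152, -34992, 4644, -207], [164160, 316, -532, 335664, 174096, 7704], [0, 0, 0, 0, -15228, 0]], 15228⟩,
  ⟨[1, 2, 4, 5, 7, 8], [[648, 7, 360, 1908, 2988, 101], [-456, 0, 0, 0, 0, 0], [0, 0, -456, 0, 0, 0], [0, 0, 0, -456, 0, 0], [3648, 19, 6384, 1596, 5700, 209], [0, 0, 0, 0, -456, 0]], 456⟩]

theorem h2 : (L2.all fun v => v.chk A b 6) = true := by decide +kernel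

/-- vertices 24 to 28 of the path -/
def L3 : List Cert := [
  ⟨[1, 3, 4, 5, 7, 8], [[945, -7, 1827, 441, 1575, 70], [-273, 0, 0, 0, 0, 0], [0, 0, -273, 0, 0, 0], [0, 0, 0, -273, 0, 0], [3696, -19, 8196, -948, 2832, 151], [0, 0, 0, 0, -273, 0]], 273⟩,
  ⟨[1, 3, 5, 6, 7, 8], [[3636, -83, 19584, -1827, 28332, 1091], [-8196, 0, 0, 0, 0, 0], [3696, -19, -948, 273, 2832, 151], [0, 0, -8196, 0, 0, 0], [0, 0, 0, -8196, 0, 0], [0, 0, 0, 0, -8196, 0]], 8196⟩,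
  ⟨[3, 4, 5, 6, 7, 8], [[-29, -3636, 9252, -945, 11520, 425], [-19, 8196, -948, 273, 2832, 151], [0, -3696, 0, 0, 0, 0], [0, 0, -3696, 0, 0, 0], [0, 0, 0, -3696, 0, 0], [0, 0, 0, 0, -3696, 0]], 3696⟩,
  ⟨[2, 4, 5, 6, 7, 8], [[29, -6192, 12996, -648, 15804, 511], [19, 6384, 1596, 456, 5700, 209], [0, -3648, 0, 0, 0, 0], [0, 0, -3648, 0, 0, 0], [0, 0, 0, -3648, 0, 0], [0, 0, 0, 0, -3648, 0]], 3648⟩,
  ⟨[1, 2, 5, 6, 7, 8], [[6192, 83, 25452, -360, 37332, 1249], [-6384, 0, 0, 0, 0, 0], [3648, 19, 1596, 456, 5700, 209], [0, 0, -6384, 0, 0, 0], [0, 0, 0, -6384, 0, 0], [0, 0, 0, 0, -6384, 0]], 6384⟩]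

theorem h3 : (L3.all fun v => v.chk A b 6) = true := by decide +kernel

/-- the vertices of the path -/
def L : List Cert := L0 ++ L1 ++ L2 ++ L3

theorem hL : (L.all fun v => v.chk A b 6) = true := by
  simp only [L, List.all_append, h0, h1, h2, h3, Bool.and_self]

theorem hs : stepsChk b c L = true := by decide +kernel

/-- There is a `6`-dimensional polyhedron with exactly 9 facets which has a monotone path with
29 vertices, that is, `M(6, 9) ≥ 29`. -/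
theorem result : HasMonotonePath 6 9 29 :=
  hasMonotonePath_of_list 6 9 29 A b c L (by decide) rfl rfl (by decide) (by decide) hL hs
    (by decide +kernel) rfl

end Pool.Agent.H81.MPS.SixNine
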